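import Mathlib

set_option autoImplicit false

namespace Pool.Agent.Results.MP_55eb77_al.Transitive

open Module Matrix

theorem avoid {F Γ : Type} [Field F] [Finite F] [Group Γ] [Finite Γ] {n : ℕ}
    (ρ : Γ →* Matrix (Fin n) (Fin n) F)
    (htr : ∀ u w : Fin n → F, u ≠ 0 → w ≠ 0 → ∃ γ, ρ γ *ᵥ u = w)
    (U W : Submodule F (Fin n → F)) (h : finrank F U + finrank F W = finrank F (Fin n → F)) :
    ∃ γ, ∀ u ∈ U, ρ γ *ᵥ u ∈ W → u = 0 := by
  classical
  by_contra hcon
  push Not at hcon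
  have := Fintype.ofFinite Γ
  have := Fintype.ofFinite (Fin n → F)
  obtain ⟨u0, -, -, hu0⟩ := hcon 1
  have hne : ∀ γ u, u ≠ 0 → ρ γ *ᵥ u ≠ 0 := by
    intro γ u hu h0; apply hu
    have : ρ γ⁻¹ *ᵥ (ρ γ *ᵥ u) = u := by rw [mulVec_mulVec, ← map_mul]; simp
    rw [← this, h0, mulVec_zero]
  let N : (Fin n → F) → (Fin n → F) → Finset Γ := fun u w => Finset.univ.filter (fun γ => ρ γ *ᵥ u = w)
  have hN : ∀ u w u' w', u ≠ 0 → w ≠ 0 → u' ≠ 0 → w' ≠ 0 → (N u w).card ≤ (N u' w').card := by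
    intro u w u' w' hu hw hu' hw'
    obtain ⟨a, ha⟩ := htr u' u hu' hu
    obtain ⟨b, hb⟩ := htr w w' hw hw'
    refine Finset.card_le_card_of_injOn (fun γ => b * γ * a) ?_ ?_
    · intro γ hγ
      simp only [N, Finset.coe_filter, Finset.mem_univ, true_and, Set.mem_setOf_eq] at hγ ⊢
      rw [map_mul, map_mul, ← mulVec_mulVec, ← mulVec_mulVec, ha, hγ, hb]
    · intro x _ y _ hxy; simpa using hxy
  let SU := (Finset.univ.filter (· ∈ U)).erase (0 : Fin n → F)
  let SW := (Finset.univ.filter (· ∈ W)).erase (0 : Fin n → F)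
  let X := (Finset.univ : Finset (Fin n → F)).erase 0
  have h1 : Fintype.card Γ ≤ (SU ×ˢ SW).card * (N u0 u0).card := by
    have hsub : (Finset.univ : Finset Γ) ⊆ (SU ×ˢ SW).biUnion (fun p => N p.1 p.2) := by
      intro γ _
      obtain ⟨u, hu, hw, hu'⟩ := hcon γ
      exact Finset.mem_biUnion.2 ⟨(u, ρ γ *ᵥ u), by simp [SU, SW, hu, hw, hu', hne γ u hu'],
        by simp [N]⟩
    refine (Finset.card_le_card hsub).trans (Finset.card_biUnion_le_card_mul _ _ _ ?_)
    rintro ⟨u, w⟩ hp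
    simp only [SU, SW, Finset.mem_product, Finset.mem_erase] at hp
    exact hN _ _ _ _ hp.1.1 hp.2.1 hu0 hu0
  have h2 : X.card * (N u0 u0).card ≤ Fintype.card Γ := by
    rw [← Finset.card_univ, Finset.card_eq_sum_card_fiberwise (s := Finset.univ) (t := X)
      (f := fun γ => ρ γ *ᵥ u0) (fun γ _ => by simpa [X] using hne γ u0 hu0), ← smul_eq_mul]
    exact Finset.card_nsmul_le_sum _ _ _
      (fun w hw => hN _ _ _ _ hu0 hu0 hu0 (Finset.ne_of_mem_erase hw))
  have hp : 0 < (N u0 u0).card := Finset.card_pos.2 ⟨1, by simp [N]⟩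
  have h3 := Nat.le_of_mul_le_mul_right (h2.trans h1) hp
  have c : ∀ V : Submodule F (Fin n → F),
      ((Finset.univ.filter (· ∈ V)).erase (0 : Fin n → F)).card + 1 = Nat.card F ^ finrank F V := by
    intro V
    rw [Finset.card_erase_add_one (by simp), ← Module.natCard_eq_pow_finrank (K := F) (V := V),
      Nat.card_eq_fintype_card, Fintype.card_subtype]
  have cU : SU.card + 1 = _ := c U
  have cW : SW.card + 1 = _ := c W
  have cK : X.card + 1 = Nat.card F ^ finrank F (Fin n → F) := by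
    rw [Finset.card_erase_add_one (by simp), ← Module.natCard_eq_pow_finrank (K := F),
      Nat.card_eq_fintype_card, Finset.card_univ]
  have hpos : 0 < X.card := Finset.card_pos.2 ⟨u0, by simp [X, hu0]⟩
  rw [← h, pow_add, ← cU, ← cW] at cK
  rw [Finset.card_product] at h3
  generalize SU.card = s at *
  generalize SW.card = t at *
  have : s = 0 := by nlinarith
  subst this
  omega

theorem result (F : Type) [Field F] [Fintype F] (n : ℕ) (G : Subgroup (GL (Fin n) F))
    (htr : ∀ u w : Fin n → F, u ≠ 0 → w ≠ 0 →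
      ∃ g ∈ G, ∃ c : F, c ≠ 0 ∧ (g : Matrix (Fin n) (Fin n) F) *ᵥ u = c • w)
    (a : Matrix (Fin n) (Fin n) F) :
    ∀ x ∈ Subsemigroup.closure (Units.val '' (G : Set (GL (Fin n) F)) ∪ {a}),
      ∃ y ∈ Subsemigroup.closure (Units.val '' (G : Set (GL (Fin n) F)) ∪ {a}),
        x = x * y * x := by
  classical
  intro x hx
  let ρ : G × Fˣ →* Matrix (Fin n) (Fin n) F :=
    { toFun := fun p => (p.2 : F) • ((p.1 : GL (Fin n) F) : Matrix (Fin n) (Fin n) F)
      map_one' := by simp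
      map_mul' := fun p q => by simp [smul_smul, mul_comm] }
  obtain ⟨⟨⟨g, hg⟩, c⟩, hγ⟩ := avoid ρ (by
      intro u w hu hw
      obtain ⟨g, hg, c, hc, h⟩ := htr u w hu hw
      refine ⟨(⟨g, hg⟩, (Units.mk0 c hc)⁻¹), ?_⟩
      simp [ρ, smul_mulVec, h, smul_smul, hc])
    (LinearMap.range x.mulVecLin) (LinearMap.ker x.mulVecLin)
    (LinearMap.finrank_range_add_finrank_ker _)
  set y := x * (g : Matrix (Fin n) (Fin n) F) with hy
  have hcanc : ∀ t, y * (x * t) = 0 → x * t = 0 := by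
    intro t ht
    rw [Matrix.ext_iff_mulVec] at ht ⊢
    intro v
    rw [zero_mulVec, ← mulVec_mulVec]
    apply hγ _ ⟨_, rfl⟩
    have := ht v
    rw [zero_mulVec, hy, ← mulVec_mulVec, ← mulVec_mulVec, ← mulVec_mulVec] at this
    simp only [mulVec_mulVec] at this
    simp [ρ, smul_mulVec, this]
  have hpow : ∀ (i : ℕ) t, y ^ i * (x * t) = 0 → x * t = 0 := by
    intro i
    induction i with
    | zero => intro t ht; simpa using ht
    | succ i ih =>
      intro t ht
      apply hcanc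
      rw [hy, mul_assoc]
      apply ih
      rw [← mul_assoc x, ← hy, ← mul_assoc, ← pow_succ]; exact ht
  obtain ⟨i, j, hij, he⟩ : ∃ i j : ℕ, i < j ∧ y ^ i = y ^ j := by
    obtain ⟨i, j, h1, h2⟩ := Finite.exists_ne_map_eq_of_infinite (fun i : ℕ => y ^ i)
    rcases lt_or_gt_of_ne h1 with h | h
    · exact ⟨i, j, h, h2⟩
    · exact ⟨j, i, h, h2.symm⟩
  obtain ⟨e, rfl⟩ := Nat.exists_eq_add_of_lt hij
  have hgS : (g : Matrix (Fin n) (Fin n) F) ∈
      Subsemigroup.closure (Units.val '' (G : Set (GL (Fin n) F)) ∪ {a}) :=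
    Subsemigroup.subset_closure (Or.inl ⟨g, hg, rfl⟩)
  refine ⟨g * y ^ e, ?_, ?_⟩
  · clear he hij
    induction e with
    | zero => simpa using hgS
    | succ e ih => rw [pow_succ, ← mul_assoc]; exact mul_mem ih (mul_mem hx hgS)
  · have := hpow i (g * y ^ e * x - 1) (by
      rw [mul_sub, mul_one, mul_sub, ← mul_assoc x, ← mul_assoc x, ← hy, ← pow_succ',
        ← mul_assoc, ← pow_add, ← add_assoc, ← he, sub_self])
    rw [mul_sub, mul_one, sub_eq_zero, ← mul_assoc] at this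
    exact this.symm

end Pool.Agent.Results.MP_55eb77_al.Transitive
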